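import Pool.Agent.H.MP_7d0545_co.C

namespace Pool.Agent.Results.MP_7d0545_co.No

open Pool.Agent.H.MP_7d0545_co

theorem result : ∃ (C D : PolyComplex 4) (w : Fin C.m → ℕ) (v : Fin D.m → ℕ),
    IsBalanced C w ∧ IsBalanced D v ∧ Extremal C w ∧ Extremal D v ∧
    (stable C D).Nonempty ∧ ∃ p ∈ support C ∩ support D,
      Disjoint (connectedComponentIn (support C ∩ support D) p) (stable C D) :=
  ⟨Sig, Lc, fun _ => 1, fun _ => 1, sig_bal, lc_bal, sig_ext, lc_ext, main⟩

end Pool.Agent.Results.MP_7d0545_co.No
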